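import Mathlib
import Pool.Agent.Lib.MP_148e9f_nt.Four
import Pool.Agent.Lib.MP_148e9f_nt.Big

set_option autoImplicit false

namespace Pool.Agent.Results.MP_148e9f_nt.LargeParts

open Pool.Agent.Lib.MP_148e9f_nt

theorem result (n a b c d : ℕ) (hn : Odd n) (ha : 1 < a) (hb : 1 < b) (hc : 1 < c) (hd : 1 < d)
    (hab : n = a * b) (hcd : n = c * d)
    (h1 : 2 * (a + 1) * (b + 1) ∣ (a + b) ^ 2 + (a * b + 1) ^ 2)
    (h2 : 2 * (c + 1) * (d + 1) ∣ (c + d) ^ 2 + (c * d + 1) ^ 2) :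
    (a = c ∧ b = d) ∨ (a = d ∧ b = c) ∨
      ∃ w x y z : ℕ, n < w ^ 150 ∧ n < x ^ 150 ∧ n < y ^ 150 ∧ n < z ^ 150 ∧
        w.Coprime x ∧ w.Coprime y ∧ w.Coprime z ∧ x.Coprime y ∧ x.Coprime z ∧ y.Coprime z ∧
        a = w * x ∧ b = y * z ∧ c = w * y ∧ d = x * z := by
  refine (fourParts n a b c d hn ha hb hc hd hab hcd h1 h2).imp_right (Or.imp_right ?_)
  rintro ⟨w, x, y, z, w1, x1, y1, z1, g1, g2, g3, g4, g5, g6, rfl, rfl, rfl, rfl⟩
  have c1 := comp (hab ▸ hn) ha hb h1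
  have c2 := comp (hcd ▸ hn) hc hd h2
  push_cast at c1 c2
  suffices h : n < w ^ 150 ∧ n < x ^ 150 ∧ n < y ^ 150 ∧ n < z ^ 150 from
    ⟨w, x, y, z, h.1, h.2.1, h.2.2.1, h.2.2.2, g1, g2, g3, g4, g5, g6, rfl, rfl, rfl, rfl⟩
  have ne : ∀ {s t : ℕ}, 1 < s → s.Coprime t → (s : ℤ) ≠ t := fun hs h e => by
    obtain rfl := Int.natCast_inj.1 e
    rw [Nat.coprime_self] at h
    omega
  have c3 : Comp (z * x) (y * w) := by rw [mul_comm (z : ℤ), mul_comm (y : ℤ)]; exact c2.symm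
  have c4 : Comp (z * y) (x * w) := by rw [mul_comm (z : ℤ), mul_comm (x : ℤ)]; exact c1.symm
  subst hab
  zify at w1 x1 y1 z1 ⊢
  rcases (ne (by omega) g4).lt_or_gt with e | e <;> rcases (ne (by omega) g3).lt_or_gt with f | f
  · exact big4 w1 x1 e f c1 c2
  · obtain ⟨i1, i2, i3, i4⟩ := big4 z1 x1 e f c3 c4
    exact ⟨by linarith, by linarith, by linarith, by linarith⟩
  · obtain ⟨i1, i2, i3, i4⟩ := big4 w1 y1 e f c2 c1
    exact ⟨by linarith, by linarith, by linarith, by linarith⟩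
  · obtain ⟨i1, i2, i3, i4⟩ := big4 z1 y1 e f c4 c3
    exact ⟨by linarith, by linarith, by linarith, by linarith⟩

end Pool.Agent.Results.MP_148e9f_nt.LargeParts
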